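import Mathlib

/-!
# On-line coloring of intervals: definitions

A request is a pair `(s, l)`, the interval with the end points `s` and `s + l`.
-/

set_option autoImplicit false

namespace PathCol

/-- Every point lies in at most `L` requests. -/
def Load (L : ℕ) (σ : List (ℕ × ℕ)) : Prop :=
  ∀ x : ℕ, σ.countP (fun p => decide (p.1 ≤ x ∧ x ≤ p.1 + p.2)) ≤ L

/-- An on-line algorithm is a map from the request sequences to the colors: the color of the last
request. It is proper if any two different requests of a sequence which meet have different colors. -/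
def Proper (a : List (ℕ × ℕ) → ℕ) : Prop :=
  ∀ (σ : List (ℕ × ℕ)) (i j : ℕ) (hi : i < σ.length) (hj : j < σ.length), i ≠ j →
    σ[i].1 ≤ σ[j].1 + σ[j].2 → σ[j].1 ≤ σ[i].1 + σ[i].2 →
    a (σ.take (i + 1)) ≠ a (σ.take (j + 1))

/-- The number of the colors which the algorithm uses on a request sequence. -/
def used (a : List (ℕ × ℕ) → ℕ) (σ : List (ℕ × ℕ)) : ℕ :=
  ((List.range σ.length).map (fun i => a (σ.take (i + 1)))).toFinset.card

end PathCol
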