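import Pool.Agent.Lib.MP_dc6d97_lc.Main

/-!
# The lower bound `3 L - 2` of Kierstead and Trotter for deterministic algorithms
-/

set_option autoImplicit false

namespace PathCol

theorem prop2_of_proper {a : List (ℕ × ℕ) → ℕ} (ha : Proper a) : Prop2 a := by
  intro u p v q hm
  set σ := u ++ p :: (v ++ [q]) with hσ
  have e1 : σ = (u ++ [p]) ++ (v ++ [q]) := by rw [hσ]; simp
  have e2 : σ = (u ++ p :: v) ++ [q] := by rw [hσ]; simp
  have hl : σ.length = u.length + 1 + v.length + 1 := by rw [hσ]; simp; omega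
  have h2 := ha σ u.length (u.length + 1 + v.length) (by omega) (by omega) (by omega)
  have g1 : σ[u.length]'(by omega) = p := by simp [hσ]
  have g2 : σ[u.length + 1 + v.length]'(by omega) = q := by
    have : σ = (u ++ p :: v) ++ [q] := e2
    rw [List.getElem_of_eq this, List.getElem_append_right (by simp; omega)]
    simp
  rw [g1, g2] at h2
  have h3 := h2 hm.1 hm.2
  have g3 : σ.take (u.length + 1) = u ++ [p] := by
    rw [e1]
    have : u.length + 1 = (u ++ [p]).length := by simp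
    rw [this, List.take_left]
  have g4 : σ.take (u.length + 1 + v.length + 1) = σ := List.take_of_length_le (by omega)
  rw [g3, g4] at h3
  exact h3

section

variable (τf : List (ℕ × ℕ) → ℕ → List (ℕ × ℕ)) (h : List (ℕ × ℕ)) (W : ℕ)

/-- The first `n` blocks and the start of the next block. -/
def st : ℕ → List (ℕ × ℕ) × ℕ
  | 0 => ([], W + 1)
  | n + 1 => ((st n).1 ++ τf (h ++ (st n).1) (st n).2,
      (st n).2 + 2 + ((τf (h ++ (st n).1) (st n).2).map fun p => p.1 + p.2 + 1).sum)

/-- The first `n` blocks. -/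
def TT (n : ℕ) : List (ℕ × ℕ) := (st τf h W n).1

/-- The start of the block `n`. -/
def VV (n : ℕ) : ℕ := (st τf h W n).2

/-- The block `n`. -/
def BB (n : ℕ) : List (ℕ × ℕ) := τf (h ++ TT τf h W n) (VV τf h W n)

theorem TT_succ (n : ℕ) : TT τf h W (n + 1) = TT τf h W n ++ BB τf h W n := rfl

theorem VV_succ (n : ℕ) : VV τf h W (n + 1) = VV τf h W n + 2 +
    ((BB τf h W n).map fun p => p.1 + p.2 + 1).sum := rfl

theorem le_sum_map (l : List (ℕ × ℕ)) : ∀ p ∈ l, p.1 + p.2 + 1 ≤ (l.map fun p => p.1 + p.2 + 1).sum := by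
  induction l with
  | nil => intro p hp; simp at hp
  | cons q l ih =>
    intro p hp
    rw [List.map_cons, List.sum_cons]
    rcases List.mem_cons.1 hp with rfl | hp
    · omega
    · have := ih p hp; omega

theorem VV_lt (n : ℕ) : VV τf h W n < VV τf h W (n + 1) := by
  rw [VV_succ]; omega

theorem VV_strict : StrictMono (VV τf h W) := strictMono_nat_of_lt_succ (VV_lt τf h W)

theorem VV_ge (n : ℕ) : W + 1 ≤ VV τf h W n := (VV_strict τf h W).monotone (Nat.zero_le n)

theorem BB_lt {n : ℕ} {p : ℕ × ℕ} (hp : p ∈ BB τf h W n) : p.1 + p.2 + 1 < VV τf h W (n + 1) := by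
  have := le_sum_map _ p hp
  rw [VV_succ]; omega

theorem mem_TT {n : ℕ} {p : ℕ × ℕ} (hp : p ∈ TT τf h W n) : ∃ i < n, p ∈ BB τf h W i := by
  induction n with
  | zero => simp [TT, st] at hp
  | succ n ih =>
    rw [TT_succ, List.mem_append] at hp
    rcases hp with hp | hp
    · obtain ⟨i, h1, h2⟩ := ih hp
      exact ⟨i, by omega, h2⟩
    · exact ⟨n, by omega, hp⟩

theorem TT_split {i n : ℕ} (hin : i < n) : ∃ r, TT τf h W n = TT τf h W i ++ (BB τf h W i ++ r) := by
  induction n with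
  | zero => omega
  | succ n ih =>
    rcases Nat.lt_or_ge i n with h1 | h1
    · obtain ⟨r, hr⟩ := ih h1
      refine ⟨r ++ BB τf h W n, ?_⟩
      rw [TT_succ, hr]
      simp
    · have h2 : i = n := by omega
      subst h2
      exact ⟨[], by rw [TT_succ, List.append_nil]⟩

variable {τf h W}
variable (hge : ∀ h W, ∀ p ∈ τf h W, W ≤ p.1)

include hge

theorem BB_ge {n : ℕ} {p : ℕ × ℕ} (hp : p ∈ BB τf h W n) : VV τf h W n ≤ p.1 := hge _ _ p hp

theorem TT_ge {n : ℕ} {p : ℕ × ℕ} (hp : p ∈ TT τf h W n) : W ≤ p.1 := by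
  obtain ⟨i, _, hi⟩ := mem_TT τf h W hp
  have := BB_ge hge hi
  have := VV_ge τf h W i
  omega

theorem TT_gap {n j : ℕ} {p : ℕ × ℕ} (hp : p ∈ TT τf h W n) :
    ¬ (p.1 ≤ VV τf h W j - 1 ∧ VV τf h W j - 1 ≤ p.1 + p.2) := by
  obtain ⟨i, _, hi⟩ := mem_TT τf h W hp
  have h1 := BB_ge hge hi
  have h2 := BB_lt τf h W hi
  have h3 := VV_ge τf h W j
  rcases Nat.lt_or_ge i j with h4 | h4
  · have h5 := (VV_strict τf h W).monotone (show i + 1 ≤ j from h4)
    omega
  · have h5 := (VV_strict τf h W).monotone h4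
    omega

theorem TT_load {k : ℕ} (hl : ∀ h W, Load k (τf h W)) (n : ℕ) : Load k (TT τf h W n) := by
  induction n with
  | zero => intro x; simp [TT, st]
  | succ n ih =>
    intro x
    rw [TT_succ, List.countP_append]
    rcases Nat.lt_or_ge x (VV τf h W n) with hx | hx
    · have h1 : (BB τf h W n).countP (fun p => decide (p.1 ≤ x ∧ x ≤ p.1 + p.2)) = 0 := by
        rw [List.countP_eq_zero]
        intro p hp hh
        have h2 := BB_ge hge hp
        have h3 : p.1 ≤ x ∧ x ≤ p.1 + p.2 := of_decide_eq_true hh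
        omega
      rw [h1]
      exact ih x
    · have h1 : (TT τf h W n).countP (fun p => decide (p.1 ≤ x ∧ x ≤ p.1 + p.2)) = 0 := by
        rw [List.countP_eq_zero]
        intro p hp hh
        obtain ⟨i, hi, hi'⟩ := mem_TT τf h W hp
        have h2 := BB_lt τf h W hi'
        have h3 : p.1 ≤ x ∧ x ≤ p.1 + p.2 := of_decide_eq_true hh
        have h4 := (VV_strict τf h W).monotone (show i + 1 ≤ n from hi)
        omega
      rw [h1, zero_add]
      exact hl _ _ x

/-- The long request from the gap before the block `i` to the gap before the block `j`. -/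
def lg (V : ℕ → ℕ) (i j : ℕ) : ℕ × ℕ := (V i - 1, V j - V i)

/-- The color of a long request over the block `i` is not a color of this block. -/
theorem lg_ne {a : List (ℕ × ℕ) → ℕ} (ha : Prop2 a) {i j j' n : ℕ} (hji : j ≤ i) (hij : i < j')
    (hin : i < n) {d : ℕ} (hd : ∃ u p, (u ++ [p]) <+: BB τf h W i ∧
      a ((h ++ TT τf h W i) ++ (u ++ [p])) = d) (l : List (ℕ × ℕ)) :
    a ((h ++ TT τf h W n) ++ (l ++ [lg (VV τf h W) j j'])) ≠ d := by
  obtain ⟨u, p, ⟨t, ht⟩, rfl⟩ := hd
  obtain ⟨r, hr⟩ := TT_split τf h W hin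
  have hp : p ∈ BB τf h W i := by rw [← ht]; simp
  have h1 := BB_ge hge hp
  have h2 := BB_lt τf h W hp
  have h3 := (VV_strict τf h W).monotone hji
  have h4 := (VV_strict τf h W).monotone (show i + 1 ≤ j' from hij)
  have h5 := VV_ge τf h W j
  have hm : Meet p (lg (VV τf h W) j j') := by
    constructor <;> dsimp only [lg] <;> omega
  have h6 := ha (h ++ TT τf h W i ++ u) p (t ++ r ++ l) (lg (VV τf h W) j j') hm
  have e1 : h ++ TT τf h W i ++ u ++ [p] = (h ++ TT τf h W i) ++ (u ++ [p]) := by simp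
  have e2 : h ++ TT τf h W i ++ u ++ p :: (t ++ r ++ l ++ [lg (VV τf h W) j j']) =
      (h ++ TT τf h W n) ++ (l ++ [lg (VV τf h W) j j']) := by
    rw [hr, ← ht]
    simp
  rw [e1, e2] at h6
  exact h6.symm

end

end PathCol
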