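import Pool.Agent.Lib.MP_dc6d97_lc.KT

/-!
# The lower bound `3 L - 2` of Kierstead and Trotter for deterministic algorithms, end
-/

set_option autoImplicit false

namespace PathCol

theorem countP_three (x : ℕ) (p q r : ℕ × ℕ) :
    [p, q, r].countP (fun p => decide (p.1 ≤ x ∧ x ≤ p.1 + p.2)) =
      (if p.1 ≤ x ∧ x ≤ p.1 + p.2 then 1 else 0) + ((if q.1 ≤ x ∧ x ≤ q.1 + q.2 then 1 else 0) +
        (if r.1 ≤ x ∧ x ≤ r.1 + r.2 then 1 else 0)) := by
  simp only [List.countP_cons, List.countP_nil, decide_eq_true_eq]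
  ring

theorem countP_four (x : ℕ) (p q r s : ℕ × ℕ) :
    [p, q, r, s].countP (fun p => decide (p.1 ≤ x ∧ x ≤ p.1 + p.2)) =
      (if p.1 ≤ x ∧ x ≤ p.1 + p.2 then 1 else 0) + ((if q.1 ≤ x ∧ x ≤ q.1 + q.2 then 1 else 0) +
        ((if r.1 ≤ x ∧ x ≤ r.1 + r.2 then 1 else 0) +
          (if s.1 ≤ x ∧ x ≤ s.1 + s.2 then 1 else 0))) := by
  simp only [List.countP_cons, List.countP_nil, decide_eq_true_eq]
  ring

theorem kt {a : List (ℕ × ℕ) → ℕ} (ha : Prop2 a) : ∀ (k : ℕ) (h : List (ℕ × ℕ)) (W : ℕ),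
    ∃ (τ : List (ℕ × ℕ)) (D : Finset ℕ), (∀ p ∈ τ, W ≤ p.1) ∧ Load (k + 1) τ ∧
      D.card = 3 * k + 1 ∧ ∀ d ∈ D, ∃ u p, (u ++ [p]) <+: τ ∧ a (h ++ (u ++ [p])) = d := by
  classical
  intro k
  induction k with
  | zero =>
    intro h W
    refine ⟨[(W, 0)], {a (h ++ [(W, 0)])}, ?_, ?_, ?_, ?_⟩
    · intro p hp
      rw [List.mem_singleton] at hp
      rw [hp]
    · intro x
      exact List.countP_le_length
    · simp
    · intro d hd
      rw [Finset.mem_singleton] at hd
      exact ⟨[], (W, 0), ⟨[], rfl⟩, hd.symm⟩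
  | succ k ih =>
    intro h W
    choose τf Df h1 h2 h3 h4 using ih
    set D : ℕ → Finset ℕ := fun i => Df (h ++ TT τf h W i) (VV τf h W i) with hD
    have hDc : ∀ i, (D i).card = 3 * k + 1 := fun i => h3 _ _
    have hDd : ∀ i, ∀ d ∈ D i, ∃ u p, (u ++ [p]) <+: BB τf h W i ∧
        a ((h ++ TT τf h W i) ++ (u ++ [p])) = d := fun i d hd => h4 _ _ d hd
    by_cases hA : ∃ m, 3 * k + 4 ≤ ((Finset.range m).biUnion D).card
    · obtain ⟨m, hm⟩ := hA
      obtain ⟨D', hD', hD'c⟩ := Finset.exists_subset_card_eq hm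
      refine ⟨TT τf h W m, D', fun p hp => TT_ge h1 hp, ?_, by omega, ?_⟩
      · intro x
        exact (TT_load h1 h2 m x).trans (by omega)
      · intro d hd
        obtain ⟨i, hi, hdi⟩ := Finset.mem_biUnion.1 (hD' hd)
        obtain ⟨u, p, ⟨t, ht⟩, he⟩ := hDd i d hdi
        obtain ⟨r, hr⟩ := TT_split τf h W (Finset.mem_range.1 hi)
        refine ⟨TT τf h W i ++ u, p, ⟨t ++ r, ?_⟩, ?_⟩
        · rw [hr, ← ht]; simp
        · rw [← he]; simp
    push Not at hA
    have hfin : (⋃ i, (D i : Set ℕ)).Finite := by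
      by_contra hinf
      obtain ⟨t, ht, htc⟩ := Set.Infinite.exists_subset_card_eq hinf (3 * k + 4)
      have h5 : ∀ x ∈ t, ∃ i, x ∈ D i := fun x hx => by
        obtain ⟨i, hi⟩ := Set.mem_iUnion.1 (ht hx)
        exact ⟨i, hi⟩
      choose! idx hidx using h5
      have h6 : t ⊆ (Finset.range (t.sup idx + 1)).biUnion D := fun x hx =>
        Finset.mem_biUnion.2 ⟨idx x, Finset.mem_range.2 (Nat.lt_succ_of_le (Finset.le_sup hx)),
          hidx x hx⟩
      have h7 := Finset.card_le_card h6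
      have h8 := hA (t.sup idx + 1)
      omega
    have hmem : ∀ i, D i ∈ hfin.toFinset.powerset := fun i => by
      rw [Finset.mem_powerset]
      intro x hx
      rw [Set.Finite.mem_toFinset]
      exact Set.mem_iUnion.2 ⟨i, hx⟩
    obtain ⟨s, hs⟩ := Finite.exists_infinite_fiber
      (fun i : ℕ => (⟨D i, hmem i⟩ : {x // x ∈ hfin.toFinset.powerset}))
    rw [Set.infinite_coe_iff] at hs
    obtain ⟨i1, hi1⟩ := hs.nonempty
    obtain ⟨i2, hi2, h12⟩ := hs.exists_gt i1
    obtain ⟨i3, hi3, h23⟩ := hs.exists_gt i2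
    obtain ⟨i4, hi4, h34⟩ := hs.exists_gt i3
    have e1 : D i1 = s.1 := congrArg Subtype.val hi1
    have e2 : D i2 = s.1 := congrArg Subtype.val hi2
    have e3 : D i3 = s.1 := congrArg Subtype.val hi3
    have e4 : D i4 = s.1 := congrArg Subtype.val hi4
    have hsc : s.1.card = 3 * k + 1 := by rw [← e1]; exact hDc _
    set T := TT τf h W (i4 + 1) with hT
    set V := VV τf h W with hV
    have hVs : StrictMono V := VV_strict τf h W
    have v1 : W + 1 ≤ V i1 := VV_ge τf h W i1
    have v2 : V i1 < V (i1 + 1) := hVs (by omega)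
    have v3 : V (i1 + 1) ≤ V i2 := hVs.monotone (by omega)
    have v4 : V i2 < V (i2 + 1) := hVs (by omega)
    have v5 : V (i2 + 1) ≤ V i3 := hVs.monotone (by omega)
    have v6 : V i3 < V i4 := hVs (by omega)
    have v7 : V i4 < V (i4 + 1) := hVs (by omega)
    have hne : ∀ {i j j'}, D i = s.1 → j ≤ i → i < j' → i < i4 + 1 → ∀ l, 
        a ((h ++ T) ++ (l ++ [lg V j j'])) ∉ s.1 := by
      intro i j j' he hj hj' hi l hmem
      rw [← he] at hmem
      exact lg_ne h1 ha hj hj' hi (hDd i _ hmem) l rfl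
    have hgap : ∀ x j, x = V j - 1 →
        T.countP (fun p => decide (p.1 ≤ x ∧ x ≤ p.1 + p.2)) = 0 := by
      intro x j hx
      rw [List.countP_eq_zero]
      intro p hp hh
      have h5 : p.1 ≤ x ∧ x ≤ p.1 + p.2 := of_decide_eq_true hh
      rw [hx] at h5
      exact TT_gap h1 hp h5
    set IA := lg V i1 (i1 + 1) with hIA
    set ID := lg V i4 (i4 + 1) with hID
    have cA : a ((h ++ T) ++ [IA]) ∉ s.1 := hne e1 (le_refl _) (by omega) (by omega) []
    have cD : a ((h ++ T) ++ [IA, ID]) ∉ s.1 := hne e4 (le_refl _) (by omega) (by omega) [IA]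
    by_cases hxz : a ((h ++ T) ++ [IA]) = a ((h ++ T) ++ [IA, ID])
    · -- two more requests
      set IB := lg V (i1 + 1) (i2 + 1) with hIB
      set IC := lg V (i2 + 1) i4 with hIC
      have cB : a ((h ++ T) ++ [IA, ID, IB]) ∉ s.1 :=
        hne e2 (show i1 + 1 ≤ i2 by omega) (by omega) (by omega) [IA, ID]
      have cC : a ((h ++ T) ++ [IA, ID, IB, IC]) ∉ s.1 :=
        hne e3 (show i2 + 1 ≤ i3 by omega) (by omega) (by omega) [IA, ID, IB]
      have n1 : a ((h ++ T) ++ [IA]) ≠ a ((h ++ T) ++ [IA, ID, IB]) :=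
        ha (h ++ T) IA [ID] IB ⟨by simp only [hIA, hIB, lg]; omega, by simp only [hIA, hIB, lg]; omega⟩
      have n2 : a ((h ++ T) ++ [IA, ID]) ≠ a ((h ++ T) ++ [IA, ID, IB, IC]) := by
        have := ha (h ++ T ++ [IA]) ID [IB] IC
          ⟨by simp only [hID, hIC, lg]; omega, by simp only [hID, hIC, lg]; omega⟩
        simpa using this
      have n3 : a ((h ++ T) ++ [IA, ID, IB]) ≠ a ((h ++ T) ++ [IA, ID, IB, IC]) := by
        have := ha (h ++ T ++ [IA, ID]) IB [] IC
          ⟨by simp only [hIB, hIC, lg]; omega, by simp only [hIB, hIC, lg]; omega⟩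
        simpa using this
      refine ⟨T ++ [IA, ID, IB, IC], insert (a ((h ++ T) ++ [IA])) (insert
        (a ((h ++ T) ++ [IA, ID, IB])) (insert (a ((h ++ T) ++ [IA, ID, IB, IC])) s.1)),
        ?_, ?_, ?_, ?_⟩
      · intro p hp
        rw [List.mem_append] at hp
        rcases hp with hp | hp
        · exact TT_ge h1 hp
        · simp only [List.mem_cons, List.not_mem_nil, or_false] at hp
          rcases hp with rfl | rfl | rfl | rfl <;> simp only [hIA, hIB, hIC, hID, lg] <;> omega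
      · intro x
        rw [List.countP_append, countP_four]
        have l1 : T.countP (fun p => decide (p.1 ≤ x ∧ x ≤ p.1 + p.2)) ≤ k + 1 :=
          TT_load (h := h) (W := W) h1 h2 (i4 + 1) x
        have l2 := hgap x (i1 + 1)
        have l3 := hgap x (i2 + 1)
        have l4 := hgap x i4
        simp only [hIA, hIB, hIC, hID, lg]
        split_ifs <;> omega
      · rw [Finset.card_insert_of_notMem, Finset.card_insert_of_notMem,
          Finset.card_insert_of_notMem cC, hsc]
        · ring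
        · rw [Finset.mem_insert, not_or]
          exact ⟨n3, cB⟩
        · rw [Finset.mem_insert, Finset.mem_insert, not_or, not_or]
          exact ⟨n1, by rw [hxz]; exact n2, cA⟩
      · intro d hd
        rw [Finset.mem_insert, Finset.mem_insert, Finset.mem_insert] at hd
        rcases hd with rfl | rfl | rfl | hd
        · exact ⟨T, IA, ⟨[ID, IB, IC], by simp⟩, by simp⟩
        · exact ⟨T ++ [IA, ID], IB, ⟨[IC], by simp⟩, by simp⟩
        · exact ⟨T ++ [IA, ID, IB], IC, ⟨[], by simp⟩, by simp⟩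
        · rw [← e1] at hd
          obtain ⟨u, p, ⟨t, ht⟩, he⟩ := hDd i1 d hd
          obtain ⟨r, hr⟩ := TT_split τf h W (show i1 < i4 + 1 by omega)
          refine ⟨TT τf h W i1 ++ u, p, ⟨t ++ r ++ [IA, ID, IB, IC], ?_⟩, ?_⟩
          · rw [hT, hr, ← ht]; simp
          · rw [← he]; simp
    · -- one more request
      set I := lg V (i1 + 1) i4 with hI
      have cI : a ((h ++ T) ++ [IA, ID, I]) ∉ s.1 :=
        hne e2 (show i1 + 1 ≤ i2 by omega) (by omega) (by omega) [IA, ID]
      have n1 : a ((h ++ T) ++ [IA]) ≠ a ((h ++ T) ++ [IA, ID, I]) :=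
        ha (h ++ T) IA [ID] I ⟨by simp only [hIA, hI, lg]; omega, by simp only [hIA, hI, lg]; omega⟩
      have n2 : a ((h ++ T) ++ [IA, ID]) ≠ a ((h ++ T) ++ [IA, ID, I]) := by
        have := ha (h ++ T ++ [IA]) ID [] I
          ⟨by simp only [hID, hI, lg]; omega, by simp only [hID, hI, lg]; omega⟩
        simpa using this
      refine ⟨T ++ [IA, ID, I], insert (a ((h ++ T) ++ [IA])) (insert
        (a ((h ++ T) ++ [IA, ID])) (insert (a ((h ++ T) ++ [IA, ID, I])) s.1)), ?_, ?_, ?_, ?_⟩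
      · intro p hp
        rw [List.mem_append] at hp
        rcases hp with hp | hp
        · exact TT_ge h1 hp
        · simp only [List.mem_cons, List.not_mem_nil, or_false] at hp
          rcases hp with rfl | rfl | rfl <;> simp only [hIA, hI, hID, lg] <;> omega
      · intro x
        rw [List.countP_append, countP_three]
        have l1 : T.countP (fun p => decide (p.1 ≤ x ∧ x ≤ p.1 + p.2)) ≤ k + 1 :=
          TT_load (h := h) (W := W) h1 h2 (i4 + 1) x
        have l2 := hgap x (i1 + 1)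
        have l4 := hgap x i4
        simp only [hIA, hI, hID, lg]
        split_ifs <;> omega
      · rw [Finset.card_insert_of_notMem, Finset.card_insert_of_notMem,
          Finset.card_insert_of_notMem cI, hsc]
        · ring
        · rw [Finset.mem_insert, not_or]
          exact ⟨n2, cD⟩
        · rw [Finset.mem_insert, Finset.mem_insert, not_or, not_or]
          exact ⟨hxz, n1, cA⟩
      · intro d hd
        rw [Finset.mem_insert, Finset.mem_insert, Finset.mem_insert] at hd
        rcases hd with rfl | rfl | rfl | hd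
        · exact ⟨T, IA, ⟨[ID, I], by simp⟩, by simp⟩
        · exact ⟨T ++ [IA], ID, ⟨[I], by simp⟩, by simp⟩
        · exact ⟨T ++ [IA, ID], I, ⟨[], by simp⟩, by simp⟩
        · rw [← e1] at hd
          obtain ⟨u, p, ⟨t, ht⟩, he⟩ := hDd i1 d hd
          obtain ⟨r, hr⟩ := TT_split τf h W (show i1 < i4 + 1 by omega)
          refine ⟨TT τf h W i1 ++ u, p, ⟨t ++ r ++ [IA, ID, I], ?_⟩, ?_⟩
          · rw [hT, hr, ← ht]; simp
          · rw [← he]; simp

/-- **Kierstead and Trotter**: a deterministic algorithm needs `3 L - 2` colors at load `L`. -/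
theorem kierstead_trotter {a : List (ℕ × ℕ) → ℕ} (ha : Proper a) {L : ℕ} (hL : 1 ≤ L) :
    ∃ σ, Load L σ ∧ 3 * L - 2 ≤ used a σ := by
  obtain ⟨k, rfl⟩ : ∃ k, L = k + 1 := ⟨L - 1, by omega⟩
  obtain ⟨τ, D, _, h2, h3, h4⟩ := kt (prop2_of_proper ha) k [] 0
  refine ⟨τ, h2, ?_⟩
  have h5 : D ⊆ (cols a τ).toFinset := by
    intro d hd
    obtain ⟨u, p, ⟨t, rfl⟩, rfl⟩ := h4 d hd
    rw [List.mem_toFinset]
    exact (cols_prefix a (u ++ [p]) t).subset (mem_cols a u p)
  have h6 := Finset.card_le_card h5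
  rw [used_eq]
  omega

end PathCol
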