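import Pool.Agent.Lib.MP_dc6d97_lc.Tree

/-!
# Labels of the colors in the order of their first appearance
-/

set_option autoImplicit false

namespace PathCol

/-- The colors of a request sequence. -/
def cols (a : List (ℕ × ℕ) → ℕ) (σ : List (ℕ × ℕ)) : List ℕ :=
  (List.range σ.length).map (fun i => a (σ.take (i + 1)))

theorem used_eq (a : List (ℕ × ℕ) → ℕ) (σ : List (ℕ × ℕ)) :
    used a σ = (cols a σ).toFinset.card := rfl

theorem cols_snoc (a : List (ℕ × ℕ) → ℕ) (σ : List (ℕ × ℕ)) (p : ℕ × ℕ) :
    cols a (σ ++ [p]) = cols a σ ++ [a (σ ++ [p])] := by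
  unfold cols
  rw [List.length_append, List.length_singleton, List.range_succ, List.map_append]
  congr 1
  · refine List.map_congr_left fun i hi => ?_
    rw [List.mem_range] at hi
    rw [List.take_append_of_le_length (by omega)]
  · simp [List.take_of_length_le]

theorem cols_prefix (a : List (ℕ × ℕ) → ℕ) (σ τ : List (ℕ × ℕ)) : cols a σ <+: cols a (σ ++ τ) := by
  induction τ using List.reverseRecOn with
  | nil => rw [List.append_nil]
  | append_singleton τ p ih =>
    rw [← List.append_assoc, cols_snoc]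
    exact ih.trans (List.prefix_append _ _)

theorem mem_cols (a : List (ℕ × ℕ) → ℕ) (σ : List (ℕ × ℕ)) (p : ℕ × ℕ) :
    a (σ ++ [p]) ∈ cols a (σ ++ [p]) := by
  rw [cols_snoc]
  simp

/-- The number of the different elements before the first occurrence of `y`. -/
def rk (l : List ℕ) (y : ℕ) : ℕ := (l.take (l.idxOf y)).toFinset.card

theorem rk_append {l : List ℕ} {y : ℕ} (h : y ∈ l) (t : List ℕ) : rk (l ++ t) y = rk l y := by
  unfold rk
  rw [List.idxOf_append_of_mem h, List.take_append_of_le_length (List.idxOf_lt_length_iff.2 h).le]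

theorem rk_prefix {l l' : List ℕ} {y : ℕ} (h : y ∈ l) (hl : l <+: l') : rk l' y = rk l y := by
  obtain ⟨t, rfl⟩ := hl
  exact rk_append h t

theorem not_mem_take {l : List ℕ} {y : ℕ} {n : ℕ} (hn : n ≤ l.idxOf y) : y ∉ l.take n := by
  intro h
  obtain ⟨i, hi, he⟩ := List.getElem_of_mem h
  rw [List.length_take] at hi
  rw [List.getElem_take] at he
  have h1 : i < l.findIdx (· == y) := by
    have : l.idxOf y = l.findIdx (· == y) := rfl
    omega
  have h2 := List.not_of_lt_findIdx h1
  rw [he] at h2
  simp at h2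

theorem rk_lt_of_idx {l : List ℕ} {y y' : ℕ} (hy : y ∈ l) (h : l.idxOf y < l.idxOf y') :
    rk l y < rk l y' := by
  unfold rk
  have h1 : l.idxOf y < l.length := List.idxOf_lt_length_iff.2 hy
  refine Finset.card_lt_card ((Finset.ssubset_iff_of_subset ?_).2 ⟨y, ?_, ?_⟩)
  · intro z hz
    rw [List.mem_toFinset] at hz ⊢
    exact (List.take_prefix_take_left (by omega)).subset hz
  · rw [List.mem_toFinset]
    have h2 : y ∈ l.take (l.idxOf y + 1) := by
      rw [take_snoc h1]
      simp
    exact (List.take_prefix_take_left (by omega)).subset h2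
  · rw [List.mem_toFinset]
    exact not_mem_take (le_refl _)

theorem rk_ne {l : List ℕ} {y y' : ℕ} (hy : y ∈ l) (hy' : y' ∈ l) (hne : y ≠ y') :
    rk l y ≠ rk l y' := by
  rcases Nat.lt_trichotomy (l.idxOf y) (l.idxOf y') with h | h | h
  · exact (rk_lt_of_idx hy h).ne
  · exact absurd ((List.idxOf_inj hy).1 h) hne
  · exact (rk_lt_of_idx hy' h).ne'

theorem rk_lt {l : List ℕ} {y : ℕ} (hy : y ∈ l) : rk l y < l.toFinset.card := by
  unfold rk
  refine Finset.card_lt_card ((Finset.ssubset_iff_of_subset ?_).2 ⟨y, ?_, ?_⟩)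
  · intro z hz
    rw [List.mem_toFinset] at hz ⊢
    exact (List.take_subset _ _) hz
  · rw [List.mem_toFinset]
    exact hy
  · rw [List.mem_toFinset]
    exact not_mem_take (le_refl _)

/-- The label of the last color. -/
def lab (a : List (ℕ × ℕ) → ℕ) (σ : List (ℕ × ℕ)) : ℕ := rk (cols a σ) (a σ)

theorem prop2_lab {a : List (ℕ × ℕ) → ℕ} (ha : Proper a) : Prop2 (lab a) := by
  intro u p v q hm
  set σ := u ++ p :: (v ++ [q]) with hσ
  have e1 : σ = (u ++ [p]) ++ (v ++ [q]) := by rw [hσ]; simp
  have e2 : σ = (u ++ p :: v) ++ [q] := by rw [hσ]; simp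
  have hl : σ.length = u.length + 1 + v.length + 1 := by rw [hσ]; simp; omega
  have h1 : a (u ++ [p]) ≠ a σ := by
    have h2 := ha σ u.length (u.length + 1 + v.length) (by omega) (by omega) (by omega)
    have g1 : σ[u.length]'(by omega) = p := by simp [hσ]
    have g2 : σ[u.length + 1 + v.length]'(by omega) = q := by
      have : σ = (u ++ p :: v) ++ [q] := e2
      rw [List.getElem_of_eq this, List.getElem_append_right (by simp; omega)]
      simp
    rw [g1, g2] at h2
    have h3 := h2 hm.1 hm.2
    have g3 : σ.take (u.length + 1) = u ++ [p] := by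
      rw [e1]
      have : u.length + 1 = (u ++ [p]).length := by simp
      rw [this, List.take_left]
    have g4 : σ.take (u.length + 1 + v.length + 1) = σ := List.take_of_length_le (by omega)
    rw [g3, g4] at h3
    exact h3
  have h2 : cols a (u ++ [p]) <+: cols a σ := by
    rw [e1]
    exact cols_prefix _ _ _
  have h3 := mem_cols a u p
  have h4 : a σ ∈ cols a σ := by
    rw [e2]
    exact mem_cols a _ q
  unfold lab
  rw [← rk_prefix h3 h2]
  exact rk_ne (h2.subset h3) h4 h1

theorem lab_lt {a : List (ℕ × ℕ) → ℕ} {σ u : List (ℕ × ℕ)} {p : ℕ × ℕ} (h : (u ++ [p]) <+: σ) :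
    lab a (u ++ [p]) < used a σ := by
  obtain ⟨t, rfl⟩ := h
  have h1 := rk_lt (mem_cols a u p)
  refine h1.trans_le (Finset.card_le_card ?_)
  intro z hz
  rw [List.mem_toFinset] at hz ⊢
  exact (cols_prefix a (u ++ [p]) t).subset hz

end PathCol
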