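import Pool.Agent.Lib.MP_dc6d97_lc.Count

/-!
# On-line coloring of intervals: exact derandomization
-/

set_option autoImplicit false

namespace PathCol

open MeasureTheory

theorem used_le (a : List (ℕ × ℕ) → ℕ) (σ : List (ℕ × ℕ)) : used a σ ≤ σ.length := by
  rw [used_eq]
  refine (List.toFinset_card_le _).trans ?_
  rw [cols, List.length_map, List.length_range]

theorem measurable_used {Ω : Type} [MeasurableSpace Ω] {A : List (ℕ × ℕ) → Ω → ℕ}
    (hm : ∀ s, Measurable (A s)) (τ : List (ℕ × ℕ)) :
    Measurable fun ω => used (fun s => A s ω) τ := by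
  classical
  have h1 : Measurable fun ω => fun i : Fin τ.length => A (τ.take (i + 1)) ω :=
    measurable_pi_lambda _ fun i => hm _
  have h2 : Measurable fun v : Fin τ.length → ℕ =>
      ((List.range τ.length).map fun i => if h : i < τ.length then v ⟨i, h⟩ else 0).toFinset.card :=
    measurable_of_countable _
  have h3 : (fun ω => used (fun s => A s ω) τ) = (fun v : Fin τ.length → ℕ =>
      ((List.range τ.length).map fun i => if h : i < τ.length then v ⟨i, h⟩ else 0).toFinset.card) ∘
        fun ω => fun i : Fin τ.length => A (τ.take (i + 1)) ω := by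
    funext ω
    show used (fun s => A s ω) τ = ((List.range τ.length).map fun i =>
      if h : i < τ.length then A (τ.take (i + 1)) ω else 0).toFinset.card
    unfold used
    congr 2
    refine List.map_congr_left fun i hi => ?_
    rw [List.mem_range] at hi
    rw [dif_pos hi]
  rw [h3]
  exact h2.comp h1

theorem derandomize (L : ℕ) (B : ℝ) (Ω : Type) [MeasurableSpace Ω] (μ : Measure Ω)
    (A : List (ℕ × ℕ) → Ω → ℕ) (hμ : IsProbabilityMeasure μ) (hm : ∀ s, Measurable (A s))
    (hp : ∀ ω, Proper fun s => A s ω)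
    (hB : ∀ σ, Load L σ → ∫ ω, (used (fun s => A s ω) σ : ℝ) ∂μ ≤ B) :
    ∃ a : List (ℕ × ℕ) → ℕ, Proper a ∧ ∀ σ, Load L σ → (used a σ : ℝ) ≤ B := by
  classical
  have hB0 : 0 ≤ B := by
    have h1 := hB [] (fun x => by simp)
    have h2 : ∫ ω, (used (fun s => A s ω) [] : ℝ) ∂μ = 0 := by simp [used]
    linarith
  set c : ℕ := ⌊B⌋₊ with hc
  have hcB : (c : ℝ) ≤ B := Nat.floor_le hB0
  have hBc : B < c + 1 := Nat.lt_floor_add_one B
  by_cases h0 : Safe L c []
  · refine ⟨alg L c, proper_alg L c, fun σ hσ => ?_⟩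
    have h1 := used_alg h0 hσ
    have h2 : (used (alg L c) σ : ℝ) ≤ c := by exact_mod_cast h1
    linarith
  exfalso
  unfold Safe at h0
  push Not at h0
  obtain ⟨N, hW⟩ := h0
  obtain ⟨S, hS⟩ := exists_bound L c N
  -- the bad events
  set F : List (ℕ × ℕ) → Ω → ℝ := fun τ ω => if used (fun s => A s ω) τ ≤ c then 1 else 0 with hF
  have hFm : ∀ τ, Measurable (F τ) := fun τ => by
    refine Measurable.ite ?_ measurable_const measurable_const
    exact measurable_used hm τ (measurableSet_Iic (a := c))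
  have hFi : ∀ τ, Integrable (F τ) μ := fun τ => by
    refine Integrable.of_bound (hFm τ).aestronglyMeasurable 1 (Filter.Eventually.of_forall
      fun ω => ?_)
    simp only [hF]
    split_ifs <;> norm_num
  have hUi : ∀ τ, Integrable (fun ω => (used (fun s => A s ω) τ : ℝ)) μ := fun τ => by
    refine Integrable.of_bound ((measurable_from_top.comp (measurable_used hm τ) :
      Measurable fun ω => ((used (fun s => A s ω) τ : ℕ) : ℝ)).aestronglyMeasurable) τ.length
      (Filter.Eventually.of_forall fun ω => ?_)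
    rw [Real.norm_of_nonneg (Nat.cast_nonneg _)]
    exact_mod_cast used_le _ τ
  set y : ℝ := 1 - B / (c + 1) with hy
  have hc1 : (0 : ℝ) < c + 1 := by positivity
  have hy0 : 0 < y := by
    rw [hy, sub_pos, div_lt_one hc1]
    exact hBc
  have hlow : ∀ τ, Load L τ → y ≤ ∫ ω, F τ ω ∂μ := by
    intro τ hτ
    have h1 : ∫ ω, ((c : ℝ) + 1) * (1 - F τ ω) ∂μ ≤ ∫ ω, (used (fun s => A s ω) τ : ℝ) ∂μ := by
      refine integral_mono (((integrable_const _).sub (hFi τ)).const_mul _) (hUi τ) fun ω => ?_
      simp only [hF]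
      split_ifs with h2
      · simp
      · push Not at h2
        have h3 : ((c + 1 : ℕ) : ℝ) ≤ (used (fun s => A s ω) τ : ℝ) := by exact_mod_cast h2
        push_cast at h3
        simpa using h3
    have h2 : ∫ ω, ((c : ℝ) + 1) * (1 - F τ ω) ∂μ = (c + 1) * (1 - ∫ ω, F τ ω ∂μ) := by
      rw [integral_const_mul, integral_sub (integrable_const _) (hFi τ)]
      simp
    have h3 := hB τ hτ
    rw [h2] at h1
    have h4 : (c + 1) * (1 - ∫ ω, F τ ω ∂μ) ≤ B := h1.trans h3
    have h5 : 1 - ∫ ω, F τ ω ∂μ ≤ B / (c + 1) := by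
      rw [le_div_iff₀ hc1, mul_comm]
      exact h4
    rw [hy]
    linarith
  -- the two estimates
  set K : ℝ := (Fintype.card (Gs N c) : ℝ) with hK
  have hK1 : 1 ≤ K := by
    rw [hK]
    exact_mod_cast (Fintype.card_pos : 0 < Fintype.card (Gs N c))
  have hup : ∀ M : ℕ, K ^ M * y ≤ (K - 1) ^ M := by
    intro M
    have h1 : K ^ M * y ≤ sumB L c N S M 0 fun τ => ∫ ω, F τ ω ∂μ :=
      sumB_lower fun τ hτ => hlow τ (hτ.load hS)
    obtain ⟨h2, h3⟩ := sumB_integral (L := L) (c := c) (N := N) (S := S) (M := M) (k := 0) hFi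
    rw [← h3] at h1
    refine h1.trans ?_
    have h4 : ∫ ω, sumB L c N S M 0 (fun τ => F τ ω) ∂μ ≤ ∫ _, (K - 1) ^ M ∂μ := by
      refine integral_mono h2 (integrable_const _) fun ω => ?_
      refine le_trans (sumB_mono fun τ => ?_) (sumB_upper (S := S) hW (prop2_lab (hp ω)) (k := 0) [])
      simp only [hF]
      split_ifs with h5
      · rw [ind, if_pos]
        intro u p hu
        exact (lab_lt hu).trans_le h5
      · rw [ind]
        split_ifs <;> norm_num
    refine h4.trans (le_of_eq ?_)
    simp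
  have hlim : Filter.Tendsto (fun M : ℕ => ((K - 1) / K) ^ M) Filter.atTop (nhds 0) := by
    refine tendsto_pow_atTop_nhds_zero_of_lt_one (div_nonneg (by linarith) (by linarith)) ?_
    rw [div_lt_one (by linarith)]
    linarith
  obtain ⟨M, hM⟩ := ((tendsto_order.1 hlim).2 y hy0).exists
  have h1 := hup M
  have hKM : 0 < K ^ M := pow_pos (by linarith) M
  rw [div_pow, div_lt_iff₀ hKM] at hM
  linarith

end PathCol
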