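import Pool.Agent.Lib.MP_dc6d97_lc.Game

/-!
# The finite strategy tree of the adversary
-/

set_option autoImplicit false

namespace PathCol

open Classical in
/-- The requests of the adversary when he guesses the answers `g 0, g 1, ...`. -/
noncomputable def seq (L c : ℕ) : ℕ → List ((ℕ × ℕ) × ℕ) → (ℕ → ℕ) → List (ℕ × ℕ)
  | 0, _, _ => []
  | n + 1, pos, g =>
    if h : ∃ p, Load L (req pos ++ [p]) ∧ ∀ x < c, Ok pos p x → W L c n (pos ++ [(p, x)]) then
      h.choose :: seq L c n (pos ++ [(h.choose, g 0)]) (fun i => g (i + 1))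
    else []

theorem seq_congr {L c : ℕ} : ∀ {n : ℕ} {pos : List ((ℕ × ℕ) × ℕ)} {g g' : ℕ → ℕ},
    (∀ i < n, g i = g' i) → seq L c n pos g = seq L c n pos g'
  | 0, _, _, _, _ => rfl
  | n + 1, pos, g, g', h => by
    rw [seq, seq, h 0 (by omega)]
    split_ifs with h1
    · rw [seq_congr (n := n) fun i hi => h (i + 1) (by omega)]
    · rfl

theorem load_seq {L c : ℕ} : ∀ {n : ℕ} {pos : List ((ℕ × ℕ) × ℕ)} {g : ℕ → ℕ},
    Load L (req pos) → Load L (req pos ++ seq L c n pos g)
  | 0, pos, g, h => by rw [seq, List.append_nil]; exact h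
  | n + 1, pos, g, h => by
    rw [seq]
    split_ifs with h1
    · have h2 := load_seq (L := L) (c := c) (n := n) (pos := pos ++ [(h1.choose, g 0)])
        (g := fun i => g (i + 1)) (by rw [req_append]; exact h1.choose_spec.1)
      rw [req_append, List.append_assoc] at h2
      exact h2
    · rw [List.append_nil]; exact h

/-- The colors of the position are those of `b`. -/
def Cons (b : List (ℕ × ℕ) → ℕ) (pos : List ((ℕ × ℕ) × ℕ)) : Prop :=
  ∀ u x v, pos = u ++ x :: v → x.2 = b (req u ++ [x.1])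

/-- Properness on extensions. -/
def Prop2 (b : List (ℕ × ℕ) → ℕ) : Prop :=
  ∀ u p v q, Meet p q → b (u ++ [p]) ≠ b (u ++ p :: (v ++ [q]))

theorem Cons.ok {b : List (ℕ × ℕ) → ℕ} (hb : Prop2 b) {pos : List ((ℕ × ℕ) × ℕ)} (hc : Cons b pos)
    (p : ℕ × ℕ) : Ok pos p (b (req pos ++ [p])) := by
  intro q hq hm
  obtain ⟨u, v, rfl⟩ := List.append_of_mem hq
  rw [hc u q v rfl]
  have h1 := hb (req u) q.1 (req v) p hm
  have h2 : req (u ++ q :: v) ++ [p] = req u ++ q.1 :: (req v ++ [p]) := by
    simp [req]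
  rw [h2]
  exact h1

theorem Cons.snoc {b : List (ℕ × ℕ) → ℕ} {pos : List ((ℕ × ℕ) × ℕ)} (hc : Cons b pos)
    (p : ℕ × ℕ) : Cons b (pos ++ [(p, b (req pos ++ [p]))]) := by
  intro u x v h
  rcases List.eq_nil_or_concat v with rfl | ⟨v', y, rfl⟩
  · obtain ⟨h1, h2⟩ := List.append_inj' h rfl
    have h3 : (p, b (req pos ++ [p])) = x := by simpa using h2
    rw [← h3, ← h1]
  · have h1 : pos ++ [(p, b (req pos ++ [p]))] = (u ++ x :: v') ++ [y] := by
      rw [h]; simp
    obtain ⟨h2, _⟩ := List.append_inj' h1 rfl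
    exact hc u x v' h2

/-- For a suitable guess the algorithm uses a color `≥ c`. -/
theorem exists_match {L c : ℕ} {b : List (ℕ × ℕ) → ℕ} (hb : Prop2 b) :
    ∀ {n : ℕ} {pos : List ((ℕ × ℕ) × ℕ)}, Cons b pos → W L c n pos →
      ∃ g : ℕ → ℕ, (∀ i, g i ≤ c) ∧ ∃ u p, (u ++ [p]) <+: seq L c n pos g ∧
        c ≤ b (req pos ++ (u ++ [p]))
  | 0, _, _, h => h.elim
  | n + 1, pos, hc, h => by
    have h' : ∃ p, Load L (req pos ++ [p]) ∧ ∀ x < c, Ok pos p x → W L c n (pos ++ [(p, x)]) := h
    set p := h'.choose with hp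
    have hps := h'.choose_spec
    rw [← hp] at hps
    have hseq : ∀ g : ℕ → ℕ, seq L c (n + 1) pos g =
        p :: seq L c n (pos ++ [(p, g 0)]) (fun i => g (i + 1)) := by
      intro g
      rw [seq, dif_pos h']
    by_cases hy : b (req pos ++ [p]) < c
    · obtain ⟨g, hg, u, q, h1, h2⟩ := exists_match (L := L) hb (hc.snoc p)
        (hps.2 _ hy (hc.ok hb p))
      refine ⟨fun i => Nat.casesOn i (b (req pos ++ [p])) g, fun i => ?_, p :: u, q, ?_, ?_⟩
      · cases i with
        | zero => exact hy.le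
        | succ i => exact hg i
      · rw [hseq]
        show p :: (u ++ [q]) <+: p :: _
        exact (List.prefix_cons_inj p).2 h1
      · have h3 : req pos ++ ((p :: u) ++ [q]) =
            req (pos ++ [(p, b (req pos ++ [p]))]) ++ (u ++ [q]) := by
          rw [req_append]; simp [req]
        rw [h3]
        exact h2
    · refine ⟨fun _ => 0, fun _ => Nat.zero_le _, [], p, ?_, ?_⟩
      · rw [hseq]
        exact ⟨_, rfl⟩
      · push Not at hy
        exact hy

/-! ### Guesses -/

/-- The finite set of the guesses. -/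
abbrev Gs (N c : ℕ) : Type := Fin N → Fin (c + 1)

/-- The guess as a function on the natural numbers. -/
def ext {N c : ℕ} (g : Gs N c) (i : ℕ) : ℕ := if h : i < N then (g ⟨i, h⟩ : ℕ) else 0

/-- The requests of a guess. -/
noncomputable def sq (L c N : ℕ) (g : Gs N c) : List (ℕ × ℕ) := seq L c N [] (ext g)

theorem load_sq (L c N : ℕ) (g : Gs N c) : Load L (sq L c N g) := by
  have h := load_seq (L := L) (c := c) (n := N) (pos := []) (g := ext g) (fun x => by simp [req])
  unfold sq
  simpa [req] using h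

theorem exists_guess {L c N : ℕ} (hW : W L c N []) {b : List (ℕ × ℕ) → ℕ} (hb : Prop2 b) :
    ∃ g : Gs N c, ∃ u p, (u ++ [p]) <+: sq L c N g ∧ c ≤ b (u ++ [p]) := by
  obtain ⟨g, hg, u, p, h1, h2⟩ := exists_match hb (pos := []) (fun u x v h => by simp at h) hW
  refine ⟨fun i => ⟨g i, Nat.lt_succ_of_le (hg i)⟩, u, p, ?_, ?_⟩
  · unfold sq
    rw [seq_congr (g' := g) fun i hi => by rw [ext, dif_pos hi]]
    exact h1
  · simpa [req] using h2

/-- A bound for the end points. -/
theorem exists_bound (L c N : ℕ) : ∃ S, ∀ g : Gs N c, ∀ p ∈ sq L c N g, p.1 + p.2 < S := by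
  have h1 : ∀ g : Gs N c, ∃ S, ∀ p ∈ sq L c N g, p.1 + p.2 < S := by
    intro g
    induction sq L c N g with
    | nil => exact ⟨0, by simp⟩
    | cons p l ih =>
      obtain ⟨S, hS⟩ := ih
      refine ⟨S + (p.1 + p.2 + 1), fun q hq => ?_⟩
      rcases List.mem_cons.1 hq with rfl | hq
      · omega
      · have := hS q hq; omega
  choose S hS using h1
  refine ⟨Finset.univ.sup S, fun g p hp => (hS g p hp).trans_le ?_⟩
  exact Finset.le_sup (Finset.mem_univ g)

/-! ### Shifts -/

/-- The shift of a request. -/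
def shift (s : ℕ) (p : ℕ × ℕ) : ℕ × ℕ := (p.1 + s, p.2)

theorem meet_shift {s : ℕ} {p q : ℕ × ℕ} : Meet (shift s p) (shift s q) ↔ Meet p q := by
  unfold Meet shift
  dsimp only
  constructor <;> rintro ⟨h1, h2⟩ <;> constructor <;> omega

theorem Prop2.shift {b : List (ℕ × ℕ) → ℕ} (hb : Prop2 b) (h : List (ℕ × ℕ)) (s : ℕ) :
    Prop2 fun τ => b (h ++ τ.map (shift s)) := by
  intro u p v q hm
  have := hb (h ++ u.map (PathCol.shift s)) (PathCol.shift s p) (v.map (PathCol.shift s))
    (PathCol.shift s q) (meet_shift.2 hm)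
  simpa using this

/-- The concatenations of shifted sequences. -/
def Bd (L c N S : ℕ) : ℕ → ℕ → List (ℕ × ℕ) → Prop
  | 0, _, τ => τ = []
  | M + 1, k, τ => ∃ (g : Gs N c) (τ' : List (ℕ × ℕ)), Bd L c N S M (k + 1) τ' ∧
      τ = (sq L c N g).map (shift (k * S)) ++ τ'

theorem Bd.ge {L c N S : ℕ} : ∀ {M k : ℕ} {τ : List (ℕ × ℕ)}, Bd L c N S M k τ →
    ∀ p ∈ τ, k * S ≤ p.1
  | 0, _, _, h, p, hp => by
    have h' : _ = [] := h
    rw [h'] at hp
    simp at hp
  | M + 1, k, _, ⟨g, τ', h1, rfl⟩, p, hp => by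
    rcases List.mem_append.1 hp with hp | hp
    · obtain ⟨q, _, rfl⟩ := List.mem_map.1 hp
      exact Nat.le_add_left _ _
    · exact (Nat.mul_le_mul_right S (Nat.le_succ k)).trans (h1.ge p hp)

theorem Bd.load {L c N S : ℕ} (hS : ∀ g : Gs N c, ∀ p ∈ sq L c N g, p.1 + p.2 < S) :
    ∀ {M k : ℕ} {τ : List (ℕ × ℕ)}, Bd L c N S M k τ → Load L τ
  | 0, _, _, h => by
    have h' : _ = [] := h
    rw [h']
    intro x
    simp
  | M + 1, k, _, ⟨g, τ', h1, rfl⟩ => by
    intro x
    rw [List.countP_append]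
    have h2 := h1.load hS x
    rcases Nat.lt_or_ge x ((k + 1) * S) with hx | hx
    · have h3 : τ'.countP (fun p => decide (p.1 ≤ x ∧ x ≤ p.1 + p.2)) = 0 := by
        rw [List.countP_eq_zero]
        intro p hp
        have := h1.ge p hp
        simp only [decide_eq_true_eq]
        omega
      rw [h3, add_zero, List.countP_map]
      rcases Nat.lt_or_ge x (k * S) with hx' | hx'
      · rw [List.countP_eq_zero.2]
        · exact Nat.zero_le _
        · intro p _ hh
          have h7 : (shift (k * S) p).1 ≤ x ∧ x ≤ (shift (k * S) p).1 + (shift (k * S) p).2 :=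
            of_decide_eq_true hh
          dsimp only [shift] at h7
          omega
      · have h4 := load_sq L c N g (x - k * S)
        refine le_trans (le_of_eq ?_) h4
        congr 1
        funext p
        simp only [Function.comp, shift]
        refine decide_eq_decide.2 ?_
        constructor <;> rintro ⟨h5, h6⟩ <;> constructor <;> omega
    · have h3 : ((sq L c N g).map (shift (k * S))).countP
          (fun p => decide (p.1 ≤ x ∧ x ≤ p.1 + p.2)) = 0 := by
        rw [List.countP_map, List.countP_eq_zero]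
        intro p hp hh
        have h5 := hS g p hp
        have h6 : (k + 1) * S = k * S + S := by ring
        have h7 : (shift (k * S) p).1 ≤ x ∧ x ≤ (shift (k * S) p).1 + (shift (k * S) p).2 :=
          of_decide_eq_true hh
        dsimp only [shift] at h7
        omega
      rw [h3, zero_add]
      exact h2

end PathCol
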