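import Pool.Agent.Lib.MP_dc6d97_lc.Game

/-!
# The upper bound `3 L - 2` of Kierstead and Trotter
-/

set_option autoImplicit false

namespace PathCol

/-- The level of a color. -/
def lv (x : ℕ) : ℕ := (x + 2) / 3

/-- The number of the requests of level at most `j` at the point `x`. -/
def cnt (pos : List ((ℕ × ℕ) × ℕ)) (j x : ℕ) : ℕ :=
  pos.countP (fun q => decide (lv q.2 ≤ j ∧ q.1.1 ≤ x ∧ x ≤ q.1.1 + q.1.2))

/-- The number of the requests of level `j` at the point `x`. -/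
def cnt' (pos : List ((ℕ × ℕ) × ℕ)) (j x : ℕ) : ℕ :=
  pos.countP (fun q => decide (lv q.2 = j ∧ q.1.1 ≤ x ∧ x ≤ q.1.1 + q.1.2))

/-- The invariant of the painter. -/
def Good (pos : List ((ℕ × ℕ) × ℕ)) : Prop :=
  (∀ j x, cnt pos j x ≤ j + 1) ∧
  ∀ q ∈ pos, ∀ k, lv q.2 = k + 1 → ∃ x, q.1.1 ≤ x ∧ x ≤ q.1.1 + q.1.2 ∧ k + 1 ≤ cnt pos k x

theorem cnt_succ (pos : List ((ℕ × ℕ) × ℕ)) (j x : ℕ) :
    cnt pos (j + 1) x = cnt pos j x + cnt' pos (j + 1) x := by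
  induction pos with
  | nil => rfl
  | cons q l ih =>
    unfold cnt cnt' at *
    rw [List.countP_cons, List.countP_cons, List.countP_cons, ih]
    by_cases h1 : q.1.1 ≤ x ∧ x ≤ q.1.1 + q.1.2
    · rcases Nat.lt_trichotomy (lv q.2) (j + 1) with h2 | h2 | h2
      · have e1 : lv q.2 ≤ j + 1 := by omega
        have e2 : lv q.2 ≤ j := by omega
        have e3 : ¬ lv q.2 = j + 1 := by omega
        simp only [e1, e2, e3, h1, true_and, false_and, and_self, decide_true, decide_false,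
          if_true]
        simp; omega
      · have e1 : lv q.2 ≤ j + 1 := by omega
        have e2 : ¬ lv q.2 ≤ j := by omega
        simp only [e1, e2, h2, h1, true_and, false_and, and_self, decide_true, decide_false,
          if_true]
        simp; omega
      · have e1 : ¬ lv q.2 ≤ j + 1 := by omega
        have e2 : ¬ lv q.2 ≤ j := by omega
        have e3 : ¬ lv q.2 = j + 1 := by omega
        simp only [e1, e2, e3, false_and, decide_false]
        simp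
    · simp only [h1, and_false, decide_false]
      simp

theorem one_le_cnt' {pos : List ((ℕ × ℕ) × ℕ)} {j x : ℕ} {q : (ℕ × ℕ) × ℕ} (hq : q ∈ pos)
    (hj : lv q.2 = j) (h1 : q.1.1 ≤ x) (h2 : x ≤ q.1.1 + q.1.2) : 1 ≤ cnt' pos j x := by
  unfold cnt'
  exact List.countP_pos_iff.2 ⟨q, hq, by simp [hj, h1, h2]⟩

theorem two_le_cnt' {pos : List ((ℕ × ℕ) × ℕ)} {j x : ℕ} {q r : (ℕ × ℕ) × ℕ} (hq : q ∈ pos)
    (hr : r ∈ pos) (hne : q.2 ≠ r.2)
    (hj : lv q.2 = j) (h1 : q.1.1 ≤ x) (h2 : x ≤ q.1.1 + q.1.2)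
    (hj' : lv r.2 = j) (h1' : r.1.1 ≤ x) (h2' : x ≤ r.1.1 + r.1.2) : 2 ≤ cnt' pos j x := by
  classical
  unfold cnt'
  rw [List.countP_eq_length_filter]
  have hqr : q ≠ r := fun h => hne (by rw [h])
  rw [← Finset.card_pair hqr]
  refine le_trans (Finset.card_le_card ?_) (List.toFinset_card_le _)
  intro z hz
  rw [Finset.mem_insert, Finset.mem_singleton] at hz
  rw [List.mem_toFinset, List.mem_filter]
  rcases hz with rfl | rfl
  · exact ⟨hq, by simp [hj, h1, h2]⟩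
  · exact ⟨hr, by simp [hj', h1', h2']⟩

theorem cnt_le_of_load {L : ℕ} {pos : List ((ℕ × ℕ) × ℕ)} {p : ℕ × ℕ}
    (hp : Load L (req pos ++ [p])) {x : ℕ} (h1 : p.1 ≤ x) (h2 : x ≤ p.1 + p.2) (j : ℕ) :
    cnt pos j x + 1 ≤ L := by
  have h3 := hp x
  rw [List.countP_append, req, List.countP_map] at h3
  have h4 : List.countP (fun p : ℕ × ℕ => decide (p.1 ≤ x ∧ x ≤ p.1 + p.2)) [p] = 1 := by
    simp [h1, h2]
  rw [h4] at h3
  refine le_trans (Nat.add_le_add_right ?_ 1) h3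
  unfold cnt
  refine List.countP_mono_left fun q _ hq => ?_
  have h5 := of_decide_eq_true hq
  exact decide_eq_true h5.2

theorem side_or {q : (ℕ × ℕ) × ℕ} {y : ℕ} (h : ¬ (q.1.1 ≤ y ∧ y ≤ q.1.1 + q.1.2)) :
    y < q.1.1 ∨ q.1.1 + q.1.2 < y := by omega

theorem sides {p : ℕ × ℕ} {y : ℕ} (hy1 : p.1 ≤ y) (hy2 : y ≤ p.1 + p.2) {q r : (ℕ × ℕ) × ℕ}
    {z z' : ℕ} (hm : Meet q.1 p) (hm' : Meet r.1 p)
    (g1 : q.1.1 ≤ z) (g2 : z ≤ q.1.1 + q.1.2) (g3 : r.1.1 ≤ z') (g4 : z' ≤ r.1.1 + r.1.2)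
    (g5 : ¬ (p.1 ≤ z ∧ z ≤ p.1 + p.2)) (g6 : ¬ (p.1 ≤ z' ∧ z' ≤ p.1 + p.2))
    (g7 : ¬ (r.1.1 ≤ z ∧ z ≤ r.1.1 + r.1.2)) (g8 : ¬ (q.1.1 ≤ z' ∧ z' ≤ q.1.1 + q.1.2)) :
    (y < q.1.1 → y < r.1.1 → False) ∧ (q.1.1 + q.1.2 < y → r.1.1 + r.1.2 < y → False) := by
  obtain ⟨u1, u2⟩ := hm
  obtain ⟨v1, v2⟩ := hm'
  constructor
  · intro w1 w2
    omega
  · intro w1 w2
    omega

theorem Good.extend {L : ℕ} {pos : List ((ℕ × ℕ) × ℕ)} (h : Good pos) {p : ℕ × ℕ}
    (hp : Load L (req pos ++ [p])) :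
    ∃ x, x < 3 * L - 2 ∧ Ok pos p x ∧ Good (pos ++ [(p, x)]) := by
  classical
  have hL := cnt_le_of_load hp (le_refl p.1) (Nat.le_add_right _ _) 0
  have hex : ∃ k, ∀ j, k ≤ j → ∀ x, p.1 ≤ x → x ≤ p.1 + p.2 → cnt pos j x ≤ j :=
    ⟨L - 1, fun j hj x h1 h2 => by have := cnt_le_of_load hp h1 h2 j; omega⟩
  obtain ⟨k, hk, hmin⟩ : ∃ k, (∀ j, k ≤ j → ∀ x, p.1 ≤ x → x ≤ p.1 + p.2 → cnt pos j x ≤ j) ∧
      ∀ m, m < k → ¬ ∀ j, m ≤ j → ∀ x, p.1 ≤ x → x ≤ p.1 + p.2 → cnt pos j x ≤ j :=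
    ⟨Nat.find hex, Nat.find_spec hex, fun m hm => Nat.find_min hex hm⟩
  have hkL : k ≤ L - 1 := by
    by_contra hcon
    exact hmin (L - 1) (by omega) fun j hj x h1 h2 => by
      have := cnt_le_of_load hp h1 h2 j; omega
  -- the witness of the new request
  have hwit : ∀ m, k = m + 1 → ∃ y, p.1 ≤ y ∧ y ≤ p.1 + p.2 ∧ m + 1 ≤ cnt pos m y := by
    intro m hm
    have h1 := hmin m (by omega)
    push Not at h1
    obtain ⟨j, hj, y, h2, h3, h4⟩ := h1
    rcases Nat.lt_or_ge j (m + 1) with h5 | h5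
    · have : j = m := by omega
      subst this
      exact ⟨y, h2, h3, h4⟩
    · have := hk j (by omega) y h2 h3
      omega
  have hx : ∃ x, lv x = k ∧ Ok pos p x := by
    rcases k with _ | m
    · refine ⟨0, rfl, fun q hq hm h0 => ?_⟩
      have h1 := hk 0 (le_refl 0) (max q.1.1 p.1) (le_max_right _ _)
        (max_le hm.1 (Nat.le_add_right _ _))
      have h2 : 1 ≤ cnt pos 0 (max q.1.1 p.1) := by
        unfold cnt
        refine List.countP_pos_iff.2 ⟨q, hq, ?_⟩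
        have h3 : lv q.2 ≤ 0 := by rw [h0]; exact le_refl _
        have h4 : max q.1.1 p.1 ≤ q.1.1 + q.1.2 := max_le (Nat.le_add_right _ _) hm.2
        simp only [decide_eq_true_eq]
        exact ⟨h3, le_max_left _ _, h4⟩
      omega
    · obtain ⟨y, hy1, hy2, hy3⟩ := hwit m rfl
      by_contra hcon
      push Not at hcon
      have hq : ∀ x, lv x = m + 1 → ∃ q ∈ pos, Meet q.1 p ∧ q.2 = x := by
        intro x hx
        have h1 := hcon x hx
        unfold Ok at h1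
        push Not at h1
        exact h1
      obtain ⟨q1, m1, t1, c1⟩ := hq (3 * m + 1) (by unfold lv; omega)
      obtain ⟨q2, m2, t2, c2⟩ := hq (3 * m + 2) (by unfold lv; omega)
      obtain ⟨q3, m3, t3, c3⟩ := hq (3 * m + 3) (by unfold lv; omega)
      have l1 : lv q1.2 = m + 1 := by rw [c1]; unfold lv; omega
      have l2 : lv q2.2 = m + 1 := by rw [c2]; unfold lv; omega
      have l3 : lv q3.2 = m + 1 := by rw [c3]; unfold lv; omega
      have n12 : q1.2 ≠ q2.2 := by rw [c1, c2]; exact Nat.ne_of_lt (by omega)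
      have n13 : q1.2 ≠ q3.2 := by rw [c1, c3]; exact Nat.ne_of_lt (by omega)
      have n23 : q2.2 ≠ q3.2 := by rw [c2, c3]; exact Nat.ne_of_lt (by omega)
      obtain ⟨y1, a1, b1, d1⟩ := h.2 q1 m1 m l1
      obtain ⟨y2, a2, b2, d2⟩ := h.2 q2 m2 m l2
      obtain ⟨y3, a3, b3, d3⟩ := h.2 q3 m3 m l3
      -- the witness of the new request is in no old request of the level
      have hA : ∀ q ∈ pos, lv q.2 = m + 1 → ¬ (q.1.1 ≤ y ∧ y ≤ q.1.1 + q.1.2) := by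
        intro q hq hl hc
        have e1 := hk (m + 1) (le_refl _) y hy1 hy2
        have e2 := cnt_succ pos m y
        have e3 := one_le_cnt' hq hl hc.1 hc.2
        omega
      have hB : ∀ q ∈ pos, lv q.2 = m + 1 → ∀ z, q.1.1 ≤ z → z ≤ q.1.1 + q.1.2 →
          m + 1 ≤ cnt pos m z → ¬ (p.1 ≤ z ∧ z ≤ p.1 + p.2) := by
        intro q hq hl z h1 h2 h3 hc
        have e1 := hk (m + 1) (le_refl _) z hc.1 hc.2
        have e2 := cnt_succ pos m z
        have e3 := one_le_cnt' hq hl h1 h2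
        omega
      have hC : ∀ q ∈ pos, ∀ r ∈ pos, q.2 ≠ r.2 → lv q.2 = m + 1 → lv r.2 = m + 1 → ∀ z,
          q.1.1 ≤ z → z ≤ q.1.1 + q.1.2 →
          m + 1 ≤ cnt pos m z → ¬ (r.1.1 ≤ z ∧ z ≤ r.1.1 + r.1.2) := by
        intro q hq r hr hne hl hl' z h1 h2 h3 hc
        have e1 := h.1 (m + 1) z
        have e2 := cnt_succ pos m z
        have e3 := two_le_cnt' hq hr hne hl h1 h2 hl' hc.1 hc.2
        omega
      have A1 := hA q1 m1 l1
      have A2 := hA q2 m2 l2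
      have A3 := hA q3 m3 l3
      have B1 := hB q1 m1 l1 y1 a1 b1 d1
      have B2 := hB q2 m2 l2 y2 a2 b2 d2
      have B3 := hB q3 m3 l3 y3 a3 b3 d3
      have C12 := hC q1 m1 q2 m2 n12 l1 l2 y1 a1 b1 d1
      have C21 := hC q2 m2 q1 m1 n12.symm l2 l1 y2 a2 b2 d2
      have C13 := hC q1 m1 q3 m3 n13 l1 l3 y1 a1 b1 d1
      have C31 := hC q3 m3 q1 m1 n13.symm l3 l1 y3 a3 b3 d3
      have C23 := hC q2 m2 q3 m3 n23 l2 l3 y2 a2 b2 d2
      have C32 := hC q3 m3 q2 m2 n23.symm l3 l2 y3 a3 b3 d3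
      obtain ⟨k1, k1'⟩ := sides hy1 hy2 t1 t2 a1 b1 a2 b2 B1 B2 C12 C21
      obtain ⟨k2, k2'⟩ := sides hy1 hy2 t1 t3 a1 b1 a3 b3 B1 B3 C13 C31
      obtain ⟨k3, k3'⟩ := sides hy1 hy2 t2 t3 a2 b2 a3 b3 B2 B3 C23 C32
      have s1 := side_or A1
      have s2 := side_or A2
      have s3 := side_or A3
      rcases s1 with s1 | s1 <;> rcases s2 with s2 | s2 <;> rcases s3 with s3 | s3
      · exact k1 s1 s2
      · exact k1 s1 s2
      · exact k2 s1 s3
      · exact k3' s2 s3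
      · exact k3 s2 s3
      · exact k2' s1 s3
      · exact k1' s1 s2
      · exact k1' s1 s2
  obtain ⟨x, hx1, hx2⟩ := hx
  refine ⟨x, by unfold lv at hx1; omega, hx2, fun j z => ?_, fun q hq m hm => ?_⟩
  · have e1 : cnt (pos ++ [(p, x)]) j z = cnt pos j z +
        if lv x ≤ j ∧ p.1 ≤ z ∧ z ≤ p.1 + p.2 then 1 else 0 := by
      unfold cnt
      rw [List.countP_append, List.countP_singleton]
      simp only [decide_eq_true_eq]
    rw [e1]
    split_ifs with h1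
    · have := hk j (by omega) z h1.2.1 h1.2.2
      omega
    · exact h.1 j z
  · have e1 : ∀ j z, cnt pos j z ≤ cnt (pos ++ [(p, x)]) j z := by
      intro j z
      unfold cnt
      rw [List.countP_append]
      omega
    rw [List.mem_append, List.mem_singleton] at hq
    rcases hq with hq | rfl
    · obtain ⟨z, h1, h2, h3⟩ := h.2 q hq m hm
      exact ⟨z, h1, h2, h3.trans (e1 _ _)⟩
    · obtain ⟨z, h1, h2, h3⟩ := hwit m (by rw [← hx1]; exact hm)
      exact ⟨z, h1, h2, h3.trans (e1 _ _)⟩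

theorem Good.not_W {L : ℕ} : ∀ {n : ℕ} {pos : List ((ℕ × ℕ) × ℕ)}, Good pos →
    ¬ W L (3 * L - 2) n pos
  | 0, _, _, h => h.elim
  | n + 1, pos, hg, h => by
    obtain ⟨p, h1, h2⟩ := h
    obtain ⟨x, hx, ho, hg'⟩ := hg.extend h1
    exact hg'.not_W (h2 x hx ho)

/-- **Kierstead and Trotter**: `3 L - 2` colors suffice at load `L`. -/
theorem kierstead_trotter_upper (L : ℕ) :
    ∃ a : List (ℕ × ℕ) → ℕ, Proper a ∧ ∀ σ, Load L σ → used a σ ≤ 3 * L - 2 := by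
  have h0 : Safe L (3 * L - 2) [] := fun n => by
    have hg : Good [] := ⟨fun j x => by simp [cnt], fun q hq => by simp at hq⟩
    exact hg.not_W
  exact ⟨alg L (3 * L - 2), proper_alg _ _, fun σ hσ => used_alg h0 hσ⟩

end PathCol
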